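import Mathlib
import Pool.Agent.Helper27.EB.Final

/-!
MP_eb515b_lc: LCL problems given by linear equations.

For an LCL problem whose label set is a finite abelian group and whose constraint is affine on the
grid `Z^d`, the following are equivalent: Borel solutions for all free Borel actions of `Z^d`; a Borel
solution on the shift graph of the free part of `2^(Z^d)`; a measurable solution there (for every
Borel probability measure); a solution almost everywhere for the fair coin measure; a Baire-measurable
solution.
-/

namespace Pool.Agent.Results.MP_eb515b_lc.AffineLabels

theorem result (d : ℕ) (S : Type) [AddCommGroup S] [Finite S] (L : EB.LCL S)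
    (hL : EB.AffineLCL d L) :
    List.TFAE [
      ∀ (X : Type) [MeasurableSpace X] [StandardBorelSpace X] (a : EB.FreeAct d X),
        EB.BorelSol a L,
      EB.BorelSol (EB.fshift d) L,
      EB.MeasSol d L,
      EB.BernSol d L,
      EB.BaireSol d L] :=
  EB.affine_tfae d L hL

end Pool.Agent.Results.MP_eb515b_lc.AffineLabels
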