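import Mathlib
import Pool.Agent.Helper33.SFL.Fin
import Pool.Agent.Helper33.SFL.LiftG

/-!
MP_eb515b_lc: an LCL problem with a Baire-measurable solution for every free action and without a measurable one.

For every `d ≥ 2` there is an LCL problem `L` (a finite label set, radius 4) such that
* every free Borel action of `Z^d` on a Polish space (more generally on a second countable Baire space whose Borel sets form a standard Borel
  space) has a Baire-measurable solution of `L`;
* no free Borel action of `Z^d` has a Borel solution of `L` on an invariant Borel set which is conull for an invariant Borel probability measure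
  for which the elements `2 e_1, ..., 2 e_d` act ergodically;
* in particular the shift graph of the free part of `2^(Z^d)` has a Baire-measurable solution, but no solution almost everywhere for the fair
  coin measure, hence no measurable and no Borel solution.
-/

namespace Pool.Agent.Results.MP_eb515b_lc.BaireNotMeasurable

open MeasureTheory

theorem result (d : ℕ) (hd : 2 ≤ d) : ∃ (S : Type) (_ : Finite S) (L : EB.LCL S),
    (∀ (X : Type) [MeasurableSpace X] [StandardBorelSpace X] [TopologicalSpace X]
      [SecondCountableTopology X] [BaireSpace X] [BorelSpace X] (a : EB.FreeAct d X),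
      SFL.BaireSolA a L) ∧
    (∀ (X : Type) [MeasurableSpace X] (a : EB.FreeAct d X) (μ : Measure X) [IsProbabilityMeasure μ],
      (∀ g : EB.Gd d, MeasurePreserving (a.T g) μ μ) →
        (∀ i : Fin d, Ergodic (a.T ((2 : ℤ) • Pi.single i 1)) μ) → ¬ SFL.MeasSolA a μ L) ∧
    EB.BaireSol d L ∧ ¬ EB.BernSol d L ∧ ¬ EB.MeasSol d L ∧ ¬ EB.BorelSol (EB.fshift d) L := by
  obtain ⟨h1, h2, h3, h4, h5, -⟩ := SFL.main d hd
  exact ⟨SFL.LabS (5 ^ d + 1), SFL.finite_LabS _, SFL.lclS (5 ^ d + 1), h1,
    fun _ _ a μ _ h6 h7 => SFL.no_solA a μ h6 h7, h2, h3, h4, h5⟩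

end Pool.Agent.Results.MP_eb515b_lc.BaireNotMeasurable
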