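import Mathlib
import Pool.Agent.Helper68.CC.Final
import Pool.Agent.Helper68.CC.Maj
import Pool.Agent.Helper68.CC.Semi

/-!
MP_eb515b_lc: LCL problems whose template has bounded width.

Let `L` be an LCL problem (any finite label set, any `d`) such that the relation `R` of the allowed
labellings of the ball of the grid `Z^d` is solved by cycle consistency: every cycle consistent finite
instance over `R` has a solution (by Kozik's theorem this says exactly that the template has bounded
width; it is also proved here for the relations preserved by a majority operation or by a semilattice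
operation).  Then a measurable, or a Baire-measurable, solution on the shift graph of the free part of
`2^(Z^d)` exists only if a constant labelling is a solution.
-/

namespace Pool.Agent.Results.MP_eb515b_lc.BoundedWidthLabels

theorem result (d : ℕ) (S : Type) [Finite S] (L : EB.LCL S)
    (hL : CC.CycleSolves {w | EB.Allowed d L w} ∨
      (∃ m : S → S → S → S, EB.Majority m ∧ EB.MClosed m {w | EB.Allowed d L w}) ∨
      ∃ m : S → S → S, CC.SemiLat m ∧ CC.BClosed m {w | EB.Allowed d L w}) :
    List.TFAE [
      EB.ConstSol d L,
      ∀ (X : Type) [MeasurableSpace X] (a : EB.FreeAct d X), EB.BorelSol a L,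
      EB.BorelSol (EB.fshift d) L,
      EB.MeasSol d L,
      EB.BernSol d L,
      EB.BaireSol d L] := by
  have : Finite (EB.ball (EB.grid d) L.r 0) := (EB.ball_grid_finite d L.r).to_subtype
  have : Nonempty (EB.ball (EB.grid d) L.r 0) := ⟨⟨0, EB.self_mem_ball _ _ _⟩⟩
  refine CC.cycle_tfae d L ?_
  rcases hL with hL | ⟨m, hm, hR⟩ | ⟨m, hm, hR⟩
  · exact hL
  · exact CC.majority_solves m hm _ hR
  · exact CC.semilattice_solves m hm _ hR

end Pool.Agent.Results.MP_eb515b_lc.BoundedWidthLabels
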