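import Mathlib
import Pool.Agent.Helper20.GT.Fin

/-!
MP_eb515b_lc: a measurable solution without a Baire-measurable one.

There is one LCL problem `L` (6 labels, radius 2) such that for every `d ≥ 2` the Schreier graph of every free Borel action of `Z^d` has a Borel
solution of `L` on an invariant conull Borel set for every Borel probability measure, but the shift graph of the free part of `2^(Z^d)` has
no Baire-measurable solution of `L`, hence no Borel one.
-/

namespace Pool.Agent.Results.MP_eb515b_lc.MeasurableNotBaire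

open MeasureTheory

theorem result : ∃ L : EB.LCL (ZMod 3 × Bool), L.r = 2 ∧ ∀ d : ℕ, 2 ≤ d →
    (∀ (X : Type) [MeasurableSpace X] [StandardBorelSpace X] (a : EB.FreeAct d X) (μ : Measure X)
      [IsProbabilityMeasure μ], ∃ C, MeasurableSet C ∧ EB.Inv a C ∧ μ Cᶜ = 0 ∧
        EB.BorelSolOn a L C) ∧
      EB.MeasSol d L ∧ ¬ EB.BaireSol d L ∧ ¬ EB.BorelSol (EB.fshift d) L :=
  ⟨GTm.lclG, rfl, fun d hd => ⟨fun _ _ _ a μ _ => GTm.meas_act (by omega) a μ,
    (GTm.main d hd).1, (GTm.main d hd).2.2.1, (GTm.main d hd).2.2.2⟩⟩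

end Pool.Agent.Results.MP_eb515b_lc.MeasurableNotBaire
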